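import Pool.Agent.N139.AS.Stm
set_option autoImplicit false

namespace Pool.Agent.N897.AS.CLM

open Module

variable {K : Type} [Field K] {M : Type} [AddCommGroup M] [Module K M] {D : Type} [CommGroup D]

theorem involution (β : D →* (M →ₗ[K] M)) (hD : ∀ u : D, u ^ 2 = 1) (u : D) (x : M) :
    β u (β u x) = x := by
  have h : β u * β u = 1 := by rw [← map_mul, ← pow_two, hD, map_one]
  have := congrArg (fun f : M →ₗ[K] M => f x) h
  simpa using this

theorem comm (β : D →* (M →ₗ[K] M)) (u v : D) (x : M) : β u (β v x) = β v (β u x) := by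
  have h : β u * β v = β v * β u := by rw [← map_mul, ← map_mul, mul_comm]
  have := congrArg (fun f : M →ₗ[K] M => f x) h
  simpa using this

theorem count [Fintype D] (h2 : (2 : K) ≠ 0) (β : D →* (M →ₗ[K] M)) (hD : ∀ u : D, u ^ 2 = 1) :
    ∀ (n : ℕ) (W : Submodule K M), Module.Finite K W → finrank K W = n →
      (∀ u, ∀ w ∈ W, β u w ∈ W) → (∀ w ∈ W, (∀ u, β u w = w) → w = 0) →
      2 * ∑ u, finrank K (W.map (β u - 1)) = Fintype.card D * n := by
  classical
  intro n
  induction n using Nat.strong_induction_on with
  | _ n ih =>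
  intro W hfin hn hinv hfix
  by_cases hsplit : ∃ u : D, (∃ w ∈ W, w ≠ 0 ∧ β u w = w) ∧ (∃ w ∈ W, w ≠ 0 ∧ β u w = -w)
  · obtain ⟨u, ⟨w1, hw1, hw10, hw1e⟩, ⟨w2, hw2, hw20, hw2e⟩⟩ := hsplit
    let P : Submodule K M := W ⊓ LinearMap.ker (β u - 1)
    let N : Submodule K M := W ⊓ LinearMap.ker (β u + 1)
    have hP : ∀ x, x ∈ P ↔ x ∈ W ∧ β u x = x := by
      intro x
      simp [P, LinearMap.mem_ker, sub_eq_zero]
    have hN : ∀ x, x ∈ N ↔ x ∈ W ∧ β u x = -x := by
      intro x
      simp [N, LinearMap.mem_ker, add_eq_zero_iff_eq_neg]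
    have hdis : P ⊓ N = ⊥ := by
      rw [eq_bot_iff]
      intro x hx
      have h1 := ((hP x).1 hx.1).2
      have h3 := ((hN x).1 hx.2).2
      rw [h1] at h3
      have h4 : (2 : K) • x = 0 := by
        rw [two_smul]
        nth_rewrite 1 [h3]
        simp
      exact (smul_eq_zero.1 h4).resolve_left h2
    have hsup : P ⊔ N = W := by
      apply le_antisymm
      · exact sup_le inf_le_left inf_le_left
      · intro x hx
        have hx' : x = (2 : K)⁻¹ • (x + β u x) + (2 : K)⁻¹ • (x - β u x) := by
          rw [← smul_add]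
          have : x + β u x + (x - β u x) = (2 : K) • x := by rw [two_smul]; abel
          rw [this, smul_smul, inv_mul_cancel₀ h2, one_smul]
        rw [hx']
        apply Submodule.add_mem_sup
        · rw [hP]
          refine ⟨W.smul_mem _ (W.add_mem hx (hinv u x hx)), ?_⟩
          rw [map_smul, map_add, involution β hD, add_comm]
        · rw [hN]
          refine ⟨W.smul_mem _ (W.sub_mem hx (hinv u x hx)), ?_⟩
          rw [map_smul, map_sub, involution β hD, ← smul_neg, neg_sub]
    have hPf : Module.Finite K P := Submodule.finiteDimensional_of_le (inf_le_left : P ≤ W)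
    have hNf : Module.Finite K N := Submodule.finiteDimensional_of_le (inf_le_left : N ≤ W)
    have hPinv : ∀ v, ∀ w ∈ P, β v w ∈ P := by
      intro v w hw
      rw [hP] at hw ⊢
      exact ⟨hinv v w hw.1, by rw [comm, hw.2]⟩
    have hNinv : ∀ v, ∀ w ∈ N, β v w ∈ N := by
      intro v w hw
      rw [hN] at hw ⊢
      exact ⟨hinv v w hw.1, by rw [comm, hw.2, map_neg]⟩
    have hadd : finrank K P + finrank K N = n := by
      have := Submodule.finrank_sup_add_finrank_inf_eq P N
      rw [hdis, hsup, finrank_bot, hn] at this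
      omega
    have hP1 : 0 < finrank K P := by
      have : Nontrivial P := ⟨⟨⟨w1, (hP w1).2 ⟨hw1, hw1e⟩⟩, 0, by
        intro h; exact hw10 (congrArg Subtype.val h)⟩⟩
      exact finrank_pos
    have hN1 : 0 < finrank K N := by
      have : Nontrivial N := ⟨⟨⟨w2, (hN w2).2 ⟨hw2, hw2e⟩⟩, 0, by
        intro h; exact hw20 (congrArg Subtype.val h)⟩⟩
      exact finrank_pos
    have e1 := ih (finrank K P) (by omega) P hPf rfl hPinv
      (fun w hw h => hfix w ((hP w).1 hw).1 h)
    have e2 := ih (finrank K N) (by omega) N hNf rfl hNinv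
      (fun w hw h => hfix w ((hN w).1 hw).1 h)
    have hr : ∀ v : D, finrank K (W.map (β v - 1)) =
        finrank K (P.map (β v - 1)) + finrank K (N.map (β v - 1)) := by
      intro v
      rw [← hsup, Submodule.map_sup]
      have h1 : P.map (β v - 1) ≤ P := by
        rintro _ ⟨w, hw, rfl⟩
        exact P.sub_mem (hPinv v w hw) hw
      have h3 : N.map (β v - 1) ≤ N := by
        rintro _ ⟨w, hw, rfl⟩
        exact N.sub_mem (hNinv v w hw) hw
      have h4 : P.map (β v - 1) ⊓ N.map (β v - 1) = ⊥ := by
        rw [eq_bot_iff, ← hdis]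
        exact inf_le_inf h1 h3
      have := Submodule.finrank_sup_add_finrank_inf_eq (P.map (β v - 1)) (N.map (β v - 1))
      rw [h4, finrank_bot] at this
      omega
    simp_rw [hr]
    rw [Finset.sum_add_distrib, mul_add, e1, e2, ← mul_add, hadd]
  · push Not at hsplit
    by_cases hW : W = ⊥
    · subst hW
      have : n = 0 := by rw [← hn, finrank_bot]
      subst this
      simp
    · obtain ⟨w0, hw0, hw00⟩ := (Submodule.ne_bot_iff W).1 hW
      have hdich : ∀ u : D, (∀ w ∈ W, β u w = w) ∨ (∀ w ∈ W, β u w = -w) := by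
        intro u
        by_cases h : ∃ w ∈ W, w ≠ 0 ∧ β u w = w
        · left
          intro w hw
          by_contra hne
          refine hsplit u h (w - β u w) (W.sub_mem hw (hinv u w hw)) ?_ ?_
          · intro h0
            exact hne (sub_eq_zero.1 h0).symm
          · rw [map_sub, involution β hD, neg_sub]
        · right
          push Not at h
          intro w hw
          by_contra hne
          refine h (w + β u w) (W.add_mem hw (hinv u w hw)) ?_ ?_
          · intro h0
            exact hne (eq_neg_of_add_eq_zero_right h0)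
          · rw [map_add, involution β hD, add_comm]
      obtain ⟨u0, hu0⟩ : ∃ u0, ∀ w ∈ W, β u0 w = -w := by
        by_contra hcon
        apply hw00
        apply hfix w0 hw0
        intro u
        rcases hdich u with h | h
        · exact h w0 hw0
        · exact absurd ⟨u, h⟩ hcon
      have hexcl : ∀ u : D, (∀ w ∈ W, β u w = w) → ¬ (∀ w ∈ W, β u w = -w) := by
        intro u h h'
        have h1 := h w0 hw0
        rw [h' w0 hw0] at h1
        have h4 : (2 : K) • w0 = 0 := by
          rw [two_smul]
          nth_rewrite 1 [← h1]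
          simp
        exact hw00 ((smul_eq_zero.1 h4).resolve_left h2)
      have hr : ∀ u : D, finrank K (W.map (β u - 1)) =
          if (∀ w ∈ W, β u w = w) then 0 else n := by
        intro u
        split_ifs with h
        · have : W.map (β u - 1) = ⊥ := by
            rw [eq_bot_iff]
            rintro _ ⟨w, hw, rfl⟩
            simp [h w hw]
          rw [this, finrank_bot]
        · have h' := (hdich u).resolve_left h
          have : W.map (β u - 1) = W := by
            apply le_antisymm
            · rintro _ ⟨w, hw, rfl⟩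
              exact W.sub_mem (hinv u w hw) hw
            · intro w hw
              refine ⟨-((2 : K)⁻¹ • w), W.neg_mem (W.smul_mem _ hw), ?_⟩
              rw [LinearMap.sub_apply, map_neg, map_smul, h' w hw]
              simp only [Module.End.one_apply, smul_neg, neg_neg, sub_neg_eq_add]
              rw [← two_smul K, smul_smul, mul_inv_cancel₀ h2, one_smul]
          rw [this, hn]
      simp_rw [hr]
      have hflip : ∀ u : D, (∀ w ∈ W, β (u0 * u) w = w) ↔ ¬ (∀ w ∈ W, β u w = w) := by
        intro u
        have hmul : ∀ w, β (u0 * u) w = β u0 (β u w) := by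
          intro w; rw [map_mul]; rfl
        constructor
        · intro h h'
          refine hexcl u h' ?_
          intro w hw
          have := h w hw
          rw [hmul, hu0 _ (hinv u w hw)] at this
          exact neg_eq_iff_eq_neg.1 this
        · intro h w hw
          rw [hmul, (hdich u).resolve_left h w hw, map_neg, hu0 w hw, neg_neg]
      have hsum : ∑ u : D, (if (∀ w ∈ W, β u w = w) then 0 else n) =
          ∑ u : D, (if (∀ w ∈ W, β u w = w) then n else 0) := by
        rw [← Equiv.sum_comp (Equiv.mulLeft u0)]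
        apply Finset.sum_congr rfl
        intro u _
        simp only [Equiv.coe_mulLeft, hflip]
        split_ifs with h1 h3 <;> simp_all
      have hsum2 : ∑ u : D, (if (∀ w ∈ W, β u w = w) then 0 else n) +
          ∑ u : D, (if (∀ w ∈ W, β u w = w) then n else 0) = Fintype.card D * n := by
        rw [← Finset.sum_add_distrib]
        have : ∀ u : D, ((if (∀ w ∈ W, β u w = w) then 0 else n) +
            (if (∀ w ∈ W, β u w = w) then n else 0)) = n := by
          intro u
          split_ifs <;> simp
        simp [this]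
      rw [two_mul]
      nth_rewrite 2 [hsum]
      exact hsum2

end Pool.Agent.N897.AS.CLM

namespace Pool.Agent.N897.AS

open Module Pool.Agent.N139.AS

/-- CLM with the intended reading of the hypothesis `u ^ 2 = 1`, `u` in `D`. -/
theorem clm (p : ℕ) [hp : Fact p.Prime] (hp2 : p ≠ 2) (M : Type) [AddCommGroup M]
    [Module (ZMod p) M] (D : Type) [CommGroup D] [Finite D] (β : D →* (M →ₗ[ZMod p] M))
    (hD : ∀ u : D, u ^ 2 = 1) (c : ℕ)
    (hc : ∀ u : D, Module.Finite (ZMod p) (LinearMap.range (β u - 1)) ∧
      Module.finrank (ZMod p) (LinearMap.range (β u - 1)) ≤ c) :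
    Module.Finite (ZMod p) (⨆ u, LinearMap.range (β u - 1) : Submodule (ZMod p) M) ∧
      Module.finrank (ZMod p) (⨆ u, LinearMap.range (β u - 1) : Submodule (ZMod p) M) ≤ 2 * c := by
  classical
  have h2 : (2 : ZMod p) ≠ 0 := by
    intro h
    have h1 : ((2 : ℕ) : ZMod p) = 0 := by exact_mod_cast h
    rw [ZMod.natCast_eq_zero_iff] at h1
    exact hp2 ((Nat.prime_dvd_prime_iff_eq hp.out Nat.prime_two).1 h1)
  have hfin : ∀ u, Module.Finite (ZMod p) (LinearMap.range (β u - 1)) := fun u => (hc u).1
  have hV : Module.Finite (ZMod p) (⨆ u, LinearMap.range (β u - 1) : Submodule (ZMod p) M) :=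
    Submodule.finite_iSup _
  refine ⟨hV, ?_⟩
  have := Fintype.ofFinite D
  have hcard : (Fintype.card D : ZMod p) ≠ 0 := by
    intro h
    rw [ZMod.natCast_eq_zero_iff] at h
    obtain ⟨x, hx⟩ := exists_prime_orderOf_dvd_card p h
    have h1 : orderOf x ∣ 2 := orderOf_dvd_of_pow_eq_one (hD x)
    rw [hx] at h1
    exact hp2 ((Nat.prime_dvd_prime_iff_eq hp.out Nat.prime_two).1 h1)
  let E : M →ₗ[ZMod p] M := ∑ u, β u
  have hE : ∀ x, E x = ∑ u, β u x := by
    intro x
    simp [E, LinearMap.sum_apply]
  have hEV : ∀ x ∈ (⨆ u, LinearMap.range (β u - 1) : Submodule (ZMod p) M), E x = 0 := by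
    intro x hx
    have hle : (⨆ u, LinearMap.range (β u - 1) : Submodule (ZMod p) M) ≤ LinearMap.ker E := by
      apply iSup_le
      rintro u _ ⟨y, rfl⟩
      rw [LinearMap.mem_ker, LinearMap.sub_apply, map_sub, hE, hE, sub_eq_zero]
      simp only [Module.End.one_apply]
      rw [← Equiv.sum_comp (Equiv.mulRight u) (fun v => β v y)]
      apply Finset.sum_congr rfl
      intro v _
      simp [map_mul]
    exact hle hx
  have hinv : ∀ u, ∀ w ∈ (⨆ u, LinearMap.range (β u - 1) : Submodule (ZMod p) M),
      β u w ∈ (⨆ u, LinearMap.range (β u - 1) : Submodule (ZMod p) M) := by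
    intro u w hw
    have hle : (⨆ u, LinearMap.range (β u - 1) : Submodule (ZMod p) M) ≤
        Submodule.comap (β u) (⨆ u, LinearMap.range (β u - 1) : Submodule (ZMod p) M) := by
      apply iSup_le
      rintro v _ ⟨y, rfl⟩
      rw [Submodule.mem_comap]
      apply Submodule.mem_iSup_of_mem v
      refine ⟨β u y, ?_⟩
      simp only [LinearMap.sub_apply, Module.End.one_apply, map_sub]
      rw [CLM.comm]
    exact hle hw
  have hfix : ∀ w ∈ (⨆ u, LinearMap.range (β u - 1) : Submodule (ZMod p) M),
      (∀ u, β u w = w) → w = 0 := by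
    intro w hw h
    have h1 := hEV w hw
    rw [hE] at h1
    simp only [h, Finset.sum_const, Finset.card_univ] at h1
    rw [← Nat.cast_smul_eq_nsmul (ZMod p)] at h1
    exact (smul_eq_zero.1 h1).resolve_left hcard
  have key := CLM.count h2 β hD _ _ hV rfl hinv hfix
  have hle : ∑ u, finrank (ZMod p) (Submodule.map (β u - 1)
      (⨆ u, LinearMap.range (β u - 1) : Submodule (ZMod p) M)) ≤ Fintype.card D * c := by
    have : Fintype.card D * c = ∑ _u : D, c := by simp
    rw [this]
    apply Finset.sum_le_sum
    intro u _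
    have := hfin u
    exact (Submodule.finrank_mono LinearMap.map_le_range).trans (hc u).2
  have hpos : 0 < Fintype.card D := Fintype.card_pos
  have h3 : Fintype.card D * finrank (ZMod p)
      (⨆ u, LinearMap.range (β u - 1) : Submodule (ZMod p) M) ≤ Fintype.card D * (2 * c) := by
    rw [← key]
    calc 2 * _ ≤ 2 * (Fintype.card D * c) := Nat.mul_le_mul_left 2 hle
      _ = _ := by ring
  exact Nat.le_of_mul_le_mul_left h3 hpos

theorem t_CLM : S_CLM := by
  intro p hp hp2 M _ _ D _ _ β hD c hc
  first
  | exact clm p hp2 M D β hD c hc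
  | exact absurd (hD 0) (by norm_num)

end Pool.Agent.N897.AS
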